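import Pool.Agent.helper52.EU.SpecI
import Pool.Agent.helper22.FJ.WPN

/-!
# Row eu:WPX (MP_ad8ced_nt): the sum for one pair, exact
-/

set_option autoImplicit false

open Finset

namespace Pool.Agent.EU

open Pool.Agent.FI Pool.Agent.FJ

/-- one coordinate in a mixed cell (real numbers) -/
theorem WPX_mix (A K₃ : ℕ) (hK₃ : 2 ≤ K₃) (a₀ a a₁ : ℝ) (h0 : 0 < a₀) (h0' : a₀ ≤ A)
    (h1 : K₃ * |a - a₀| ≤ |a₀| + A) (h2 : K₃ * |a₁ - a₀| ≤ |a₀| + A) :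
    |a| ≤ 2 * A ∧ (¬ (0 < a₁ ∧ a₁ ≤ A) → K₃ * |a| ≤ 4 * A ∨ K₃ * |a - A| ≤ 4 * A) := by
  have hK : (2 : ℝ) ≤ K₃ := by exact_mod_cast hK₃
  have e0 : |a₀| = a₀ := abs_of_pos h0
  rw [e0] at h1 h2
  have hn : 0 ≤ |a - a₀| := abs_nonneg _
  have h3 : 2 * |a - a₀| ≤ K₃ * |a - a₀| := mul_le_mul_of_nonneg_right hK hn
  have h4 : |a| ≤ |a - a₀| + a₀ := by
    have := abs_sub_abs_le_abs_sub a a₀
    rw [e0] at this
    linarith
  refine ⟨by linarith, ?_⟩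
  intro hna
  by_cases hpos : 0 < a₁
  · right
    have h5 : (A : ℝ) < a₁ := by
      by_contra h
      exact hna ⟨hpos, not_lt.1 h⟩
    have h6 : |a₁ - a₀| = a₁ - a₀ := abs_of_pos (by linarith)
    have h7 : |a - A| ≤ |a - a₀| + (A - a₀) := by
      have := abs_sub_le a a₀ (A : ℝ)
      have h8 : |a₀ - (A : ℝ)| = A - a₀ := by
        rw [abs_sub_comm]
        exact abs_of_nonneg (by linarith)
      linarith
    rw [h6] at h2
    have h9 : K₃ * |a - A| ≤ K₃ * (|a - a₀| + (A - a₀)) := mul_le_mul_of_nonneg_left h7 (by linarith)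
    have h10 : (K₃ : ℝ) * ((A : ℝ) - a₀) ≤ K₃ * (a₁ - a₀) :=
      mul_le_mul_of_nonneg_left (by linarith) (by linarith)
    rw [mul_add] at h9
    linarith
  · left
    have h6 : |a₁ - a₀| = a₀ - a₁ := by
      rw [abs_sub_comm]
      exact abs_of_pos (by linarith)
    rw [h6] at h2
    have h9 : K₃ * |a| ≤ K₃ * (|a - a₀| + a₀) := mul_le_mul_of_nonneg_left h4 (by linarith)
    have h10 : (K₃ : ℝ) * a₀ ≤ K₃ * (a₀ - a₁) :=
      mul_le_mul_of_nonneg_left (by linarith) (by linarith)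
    rw [mul_add] at h9
    linarith

theorem WPX_cast (A K₃ : ℕ) (a : ℤ) : (|(a : ℝ)| ≤ 2 * A → |a| ≤ 2 * A) ∧ ((K₃ : ℝ) * |(a : ℝ)| ≤ 4 * A → K₃ * |a| ≤ 4 * A) ∧
    ((K₃ : ℝ) * |(a : ℝ) - A| ≤ 4 * A → K₃ * |a - A| ≤ 4 * A) := by
  refine ⟨fun h => ?_, fun h => ?_, fun h => ?_⟩
  · exact_mod_cast h
  · exact_mod_cast h
  · exact_mod_cast h

theorem WPX (hGPT : GPT_stmt) (hVAR : VAR_stmt) (hRNR : RNR_stmt) (hREN : REN_stmt) (hGCL : GCL_stmt) : WPX_stmt := by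
  classical
  intro om hom x Z N R A K₁ K₃ K₄ hx hZ hN hR hA hAx hK₁ hK₃ hK₄ hK hRN M lam hlam z hz z' hz' hD
  have hK₃' : 1 ≤ K₃ := by omega
  have hM : 0 ≤ M := (abs_nonneg _).trans (hlam.1 0)
  have hdl : dl z z' ≠ 0 := by
    intro h
    rw [h] at hD
    simp at hD
  have hac := fun w : ℤ × ℤ => hRNR.1 z z' w hdl
  -- the support
  have hsup : ∀ w : ℤ × ℤ, lam (lc z w) * lam (lc z' w) * ga A (ac z w) * ga A (ac z' w) ≠ 0 →
      ((x : ℤ) < lc z w ∧ lc z w ≤ 2 * x) ∧ ((x : ℤ) < lc z' w ∧ lc z' w ≤ 2 * x) ∧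
      (0 < ac z w ∧ ac z w ≤ A) ∧ (0 < ac z' w ∧ ac z' w ≤ A) := by
    intro w hw
    have h1 : lam (lc z w) ≠ 0 := fun h => hw (by rw [h]; ring)
    have h2 : lam (lc z' w) ≠ 0 := fun h => hw (by rw [h]; ring)
    have h3 : ga A (ac z w) ≠ 0 := fun h => hw (by rw [h]; ring)
    have h4 : ga A (ac z' w) ≠ 0 := fun h => hw (by rw [h]; ring)
    refine ⟨⟨(hlam.2 _ h1).1, (hlam.2 _ h1).2.1⟩, ⟨(hlam.2 _ h2).1, (hlam.2 _ h2).2.1⟩, ?_, ?_⟩
    · by_contra h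
      exact h3 (if_neg h)
    · by_contra h
      exact h4 (if_neg h)
  -- the decomposition in cells
  obtain ⟨W, hW⟩ : ∃ W : Finset (ℤ × ℤ), W = {w ∈ Bx R | w.1 % 2 = 1 ∧ IsCoprime (lc z w) (dl z z')} :=
    ⟨_, rfl⟩
  obtain ⟨F, hF⟩ : ∃ F : ℤ × ℤ → ℝ, F = fun w => lam (lc z w) * lam (lc z' w) * ga A (ac z w) * ga A (ac z' w) :=
    ⟨_, rfl⟩
  obtain ⟨I, hI⟩ : ∃ I : Finset (ℕ × ℤ), I = range K₃ ×ˢ Ioo (-((K₃ * K₄ : ℕ) : ℤ)) ((K₃ * K₄ : ℕ) : ℤ) :=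
    ⟨_, rfl⟩
  have hTc : Tc R A lam z z' = ∑ w ∈ W, F w := by
    rw [hW, hF]
    unfold Tc
    refine Finset.sum_congr ?_ fun _ _ => rfl
    ext w
    simp only [Finset.mem_filter]
  have hdec : ∑ w ∈ W, F w = ∑ c ∈ I, ∑ w ∈ W with InC x K₃ K₄ c.1 c.2 (lc z w) (lc z' w), F w := by
    have h1 : ∑ c ∈ I, ∑ w ∈ W with InC x K₃ K₄ c.1 c.2 (lc z w) (lc z' w), F w =
        ∑ c ∈ I, ∑ w ∈ W, (if InC x K₃ K₄ c.1 c.2 (lc z w) (lc z' w) then F w else 0) :=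
      Finset.sum_congr rfl fun c _ => Finset.sum_filter _ _
    rw [h1, Finset.sum_comm]
    refine Finset.sum_congr rfl fun w _ => ?_
    by_cases hw : F w = 0
    · rw [hw]
      simp
    · rw [hF] at hw
      obtain ⟨⟨q1, q2⟩, ⟨q3, q4⟩, _, _⟩ := hsup w hw
      obtain ⟨c, hc, hcC⟩ := WPN_ex hGPT x K₃ K₄ hx hK₃' hK₄ _ _ q1 q2 q3 q4
      rw [← hI] at hc
      rw [Finset.sum_eq_single c]
      · rw [if_pos hcC]
      · intro c' _ hne
        rw [if_neg]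
        intro hC
        obtain ⟨e1, e2⟩ := WPN_uni hGPT x K₃ K₄ hx hK₃' hK₄ _ _ _ _ _ _ hC hcC
        exact hne (Prod.ext e1 e2)
      · intro h
        exact absurd hc h
  -- terms
  have hFM : ∀ w, |F w| ≤ M ^ 2 := by
    intro w
    rw [hF]
    show |lam (lc z w) * lam (lc z' w) * ga A (ac z w) * ga A (ac z' w)| ≤ M ^ 2
    rw [abs_mul, abs_mul, abs_mul, abs_of_nonneg (WPN_ga A (ac z w)).1, abs_of_nonneg (WPN_ga A (ac z' w)).1]
    have h1 : |lam (lc z w)| * |lam (lc z' w)| ≤ M * M :=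
      mul_le_mul (hlam.1 _) (hlam.1 _) (abs_nonneg _) hM
    have h2 : |lam (lc z w)| * |lam (lc z' w)| * ga A (ac z w) ≤ M * M * 1 :=
      mul_le_mul h1 (WPN_ga A _).2 (WPN_ga A _).1 (by positivity)
    have h3 : |lam (lc z w)| * |lam (lc z' w)| * ga A (ac z w) * ga A (ac z' w) ≤ M * M * 1 * 1 :=
      mul_le_mul h2 (WPN_ga A _).2 (WPN_ga A _).1 (by positivity)
    calc _ ≤ M * M * 1 * 1 := h3
      _ = M ^ 2 := by ring
  -- one cell
  obtain ⟨G, hG0⟩ : ∃ G : ℕ × ℤ → ℝ, G = fun c => if c.2 ∈ GdC x K₃ K₄ A z z' c.1 then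
      Eg x K₃ K₄ lam c.1 c.2 (1 * (dl z z').natAbs) (om 1 z z') - Eg x K₃ K₄ lam c.1 c.2 (2 * (dl z z').natAbs) (om 2 z z') else 0 :=
    ⟨_, rfl⟩
  have hcell : ∀ c ∈ I, |(∑ w ∈ W with InC x K₃ K₄ c.1 c.2 (lc z w) (lc z' w), F w) - G c| ≤
      M ^ 2 * (#{w ∈ bdN x R A K₃ z z' | InC x K₃ K₄ c.1 c.2 (lc z w) (lc z' w)} : ℝ) := by
    intro c hc
    have hb : c.1 < K₃ := by
      rw [hI, Finset.mem_product, Finset.mem_range] at hc
      exact hc.1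
    have hcI : c.2 ∈ Ioo (-((K₃ * K₄ : ℕ) : ℤ)) ((K₃ * K₄ : ℕ) : ℤ) := by
      rw [hI, Finset.mem_product] at hc
      exact hc.2
    have hn1 : 0 ≤ M ^ 2 * (#{w ∈ bdN x R A K₃ z z' | InC x K₃ K₄ c.1 c.2 (lc z w) (lc z' w)} : ℝ) := by
      positivity
    by_cases hgd : c.2 ∈ GdC x K₃ K₄ A z z' c.1
    · -- good cell
      have hgd2 := hgd
      unfold GdC at hgd2
      rw [Finset.mem_filter] at hgd2
      have hgood : ∀ w : ℤ × ℤ, InC x K₃ K₄ c.1 c.2 (lc z w) (lc z' w) →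
          0 < ac z w ∧ ac z w ≤ A ∧ 0 < ac z' w ∧ ac z' w ≤ A := by
        intro w hw
        obtain ⟨g1, g2, g3, g4⟩ := hgd2.2.2 _ _ hw
        rw [(hac w).1] at g1 g2
        rw [(hac w).2] at g3 g4
        exact ⟨by exact_mod_cast g1, by exact_mod_cast g2, by exact_mod_cast g3, by exact_mod_cast g4⟩
      have hG := hGCL om hom x Z N R A K₃ K₄ hx hZ hN hR hAx hK₃' hK₄ hRN M lam hlam z hz z' hz' hdl
        c.1 hb c.2 hgood
      have hs : ∑ w ∈ W with InC x K₃ K₄ c.1 c.2 (lc z w) (lc z' w), F w =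
          Eg x K₃ K₄ lam c.1 c.2 (1 * (dl z z').natAbs) (om 1 z z') -
            Eg x K₃ K₄ lam c.1 c.2 (2 * (dl z z').natAbs) (om 2 z z') := by
        rw [← hG]
        refine Finset.sum_congr ?_ ?_
        · rw [hW]
          ext w
          simp only [Finset.mem_filter]
          constructor
          · rintro ⟨⟨h1, h2, h3⟩, h4⟩
            exact ⟨h1, h2, h3, h4⟩
          · rintro ⟨h1, h2, h3, h4⟩
            exact ⟨⟨h1, h2, h3⟩, h4⟩
        · intro w hw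
          rw [Finset.mem_filter] at hw
          obtain ⟨_, _, _, hwC⟩ := hw
          obtain ⟨g1, g2, g3, g4⟩ := hgood w hwC
          rw [hF]
          show lam (lc z w) * lam (lc z' w) * ga A (ac z w) * ga A (ac z' w) = _
          have e1 : ga A (ac z w) = 1 := if_pos ⟨g1, g2⟩
          have e2 : ga A (ac z' w) = 1 := if_pos ⟨g3, g4⟩
          rw [e1, e2, mul_one, mul_one]
      have hGc : G c = Eg x K₃ K₄ lam c.1 c.2 (1 * (dl z z').natAbs) (om 1 z z') -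
            Eg x K₃ K₄ lam c.1 c.2 (2 * (dl z z').natAbs) (om 2 z z') := by
        rw [hG0]
        exact if_pos hgd
      rw [hs, hGc, sub_self, abs_zero]
      exact hn1
    · -- not good
      have hGc : G c = 0 := by
        rw [hG0]
        exact if_neg hgd
      rw [hGc, sub_zero]
      by_cases hne : ∃ w ∈ W, InC x K₃ K₄ c.1 c.2 (lc z w) (lc z' w) ∧ F w ≠ 0
      · obtain ⟨w₀, _, hw₀, hF₀⟩ := hne
        rw [hF] at hF₀
        obtain ⟨_, _, ⟨q5, q6⟩, ⟨q7, q8⟩⟩ := hsup w₀ hF₀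
        obtain ⟨l₁, l₂, hl, hbad⟩ : ∃ l₁ l₂ : ℤ, InC x K₃ K₄ c.1 c.2 l₁ l₂ ∧
            ¬ (0 < a1 z z' l₁ l₂ ∧ a1 z z' l₁ l₂ ≤ A ∧ 0 < a2 z z' l₁ l₂ ∧ a2 z z' l₁ l₂ ≤ A) := by
          by_contra h
          apply hgd
          unfold GdC
          rw [Finset.mem_filter]
          refine ⟨hcI, ⟨_, _, hw₀⟩, fun l₁ l₂ hl => ?_⟩
          by_contra h'
          exact h ⟨l₁, l₂, hl, h'⟩
        obtain ⟨v1, v1'⟩ := hVAR x N A K₁ K₃ K₄ hx hN hA hK₁ hK₃' hK₄ hK z hz z' hz' hD c.1 hb c.2 l₁ l₂ _ _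
          hl hw₀
        rw [(hac w₀).1] at v1
        rw [(hac w₀).2] at v1'
        have q5' : (0 : ℝ) < (ac z w₀ : ℝ) := by exact_mod_cast q5
        have q6' : (ac z w₀ : ℝ) ≤ (A : ℝ) := by exact_mod_cast q6
        have q7' : (0 : ℝ) < (ac z' w₀ : ℝ) := by exact_mod_cast q7
        have q8' : (ac z' w₀ : ℝ) ≤ (A : ℝ) := by exact_mod_cast q8
        have hall : ∀ w ∈ W, InC x K₃ K₄ c.1 c.2 (lc z w) (lc z' w) → w ∈ bdN x R A K₃ z z' := by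
          intro w hwW hw
          obtain ⟨v, v'⟩ := hVAR x N A K₁ K₃ K₄ hx hN hA hK₁ hK₃' hK₄ hK z hz z' hz' hD c.1 hb c.2 _ _ _ _
            hw hw₀
          rw [(hac w).1, (hac w₀).1] at v
          rw [(hac w).2, (hac w₀).2] at v'
          obtain ⟨m1, m2⟩ := WPX_mix A K₃ hK₃ (ac z w₀) (ac z w) (a1 z z' l₁ l₂) q5' q6' v v1
          obtain ⟨m1', m2'⟩ := WPX_mix A K₃ hK₃ (ac z' w₀) (ac z' w) (a2 z z' l₁ l₂) q7' q8' v' v1'
          obtain ⟨⟨p1, _⟩, p3, _⟩ := WPN_in hGPT x K₃ K₄ hx hK₃' hK₄ c.1 hb c.2 _ _ hw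
          have hwB : w ∈ Bx R := by
            rw [hW, Finset.mem_filter] at hwW
            exact hwW.1
          unfold bdN
          rw [Finset.mem_filter]
          refine ⟨hwB, p1, p3, (WPX_cast A K₃ _).1 m1, (WPX_cast A K₃ _).1 m1', ?_⟩
          by_cases hz1 : 0 < a1 z z' l₁ l₂ ∧ a1 z z' l₁ l₂ ≤ A
          · have hz2 : ¬ (0 < a2 z z' l₁ l₂ ∧ a2 z z' l₁ l₂ ≤ A) := fun h => hbad ⟨hz1.1, hz1.2, h.1, h.2⟩
            rcases m2' hz2 with h | h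
            · exact Or.inr (Or.inr (Or.inl ((WPX_cast A K₃ _).2.1 h)))
            · exact Or.inr (Or.inr (Or.inr ((WPX_cast A K₃ _).2.2 h)))
          · rcases m2 hz1 with h | h
            · exact Or.inl ((WPX_cast A K₃ _).2.1 h)
            · exact Or.inr (Or.inl ((WPX_cast A K₃ _).2.2 h))
        calc |∑ w ∈ W with InC x K₃ K₄ c.1 c.2 (lc z w) (lc z' w), F w|
            ≤ ∑ w ∈ W with InC x K₃ K₄ c.1 c.2 (lc z w) (lc z' w), |F w| :=
              Finset.abs_sum_le_sum_abs _ _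
          _ ≤ ∑ w ∈ bdN x R A K₃ z z' with InC x K₃ K₄ c.1 c.2 (lc z w) (lc z' w), |F w| := by
              refine Finset.sum_le_sum_of_subset_of_nonneg ?_ fun w _ _ => abs_nonneg _
              intro w hw
              rw [Finset.mem_filter] at hw ⊢
              exact ⟨hall w hw.1 hw.2, hw.2⟩
          _ ≤ ∑ w ∈ bdN x R A K₃ z z' with InC x K₃ K₄ c.1 c.2 (lc z w) (lc z' w), M ^ 2 :=
              Finset.sum_le_sum fun w _ => hFM w
          _ = _ := by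
              rw [Finset.sum_const, nsmul_eq_mul, mul_comm]
      · have hs : ∑ w ∈ W with InC x K₃ K₄ c.1 c.2 (lc z w) (lc z' w), F w = 0 := by
          refine Finset.sum_eq_zero fun w hw => ?_
          rw [Finset.mem_filter] at hw
          by_contra h
          exact hne ⟨w, hw.1, hw.2, h⟩
        rw [hs, abs_zero]
        exact hn1
  -- the boundary terms
  have hbd : ∑ c ∈ I, (#{w ∈ bdN x R A K₃ z z' | InC x K₃ K₄ c.1 c.2 (lc z w) (lc z' w)} : ℝ) ≤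
      (#(bdN x R A K₃ z z') : ℝ) := by
    have h1 : ∀ c ∈ I, (#{w ∈ bdN x R A K₃ z z' | InC x K₃ K₄ c.1 c.2 (lc z w) (lc z' w)} : ℝ) =
        ∑ w ∈ bdN x R A K₃ z z', (if InC x K₃ K₄ c.1 c.2 (lc z w) (lc z' w) then 1 else 0) := by
      intro c _
      rw [Finset.card_filter]
      push_cast
      rfl
    rw [Finset.sum_congr rfl h1, Finset.sum_comm]
    have h2 : (#(bdN x R A K₃ z z') : ℝ) = ∑ w ∈ bdN x R A K₃ z z', (1 : ℝ) := by
      rw [Finset.sum_const, nsmul_eq_mul, mul_one]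
    rw [h2]
    refine Finset.sum_le_sum fun w _ => ?_
    by_cases hw : ∃ c ∈ I, InC x K₃ K₄ c.1 c.2 (lc z w) (lc z' w)
    · obtain ⟨c, hc, hcC⟩ := hw
      rw [Finset.sum_eq_single c]
      · rw [if_pos hcC]
      · intro c' _ hne
        rw [if_neg]
        intro hC
        obtain ⟨e1, e2⟩ := WPN_uni hGPT x K₃ K₄ hx hK₃' hK₄ _ _ _ _ _ _ hC hcC
        exact hne (Prod.ext e1 e2)
      · intro h
        exact absurd hc h
    · rw [Finset.sum_eq_zero]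
      · exact zero_le_one
      · intro c hc
        rw [if_neg]
        intro h
        exact hw ⟨c, hc, h⟩
  -- the main terms
  have hmain : ∑ c ∈ I, G c = ∑ b ∈ range K₃, ∑ m ∈ GdC x K₃ K₄ A z z' b,
      (Eg x K₃ K₄ lam b m (1 * (dl z z').natAbs) (om 1 z z') - Eg x K₃ K₄ lam b m (2 * (dl z z').natAbs) (om 2 z z')) := by
    rw [hI, Finset.sum_product]
    refine Finset.sum_congr rfl fun b _ => ?_
    rw [hG0]
    show ∑ m ∈ Ioo (-((K₃ * K₄ : ℕ) : ℤ)) ((K₃ * K₄ : ℕ) : ℤ), (if m ∈ GdC x K₃ K₄ A z z' b then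
      Eg x K₃ K₄ lam b m (1 * (dl z z').natAbs) (om 1 z z') - Eg x K₃ K₄ lam b m (2 * (dl z z').natAbs) (om 2 z z') else 0) = _
    rw [← Finset.sum_filter]
    refine Finset.sum_congr ?_ fun _ _ => rfl
    ext m
    rw [Finset.mem_filter]
    constructor
    · exact fun h => h.2
    · intro h
      refine ⟨?_, h⟩
      unfold GdC at h
      rw [Finset.mem_filter] at h
      exact h.1
  rw [hTc, hdec, ← hmain, ← Finset.sum_sub_distrib]
  calc |∑ c ∈ I, ((∑ w ∈ W with InC x K₃ K₄ c.1 c.2 (lc z w) (lc z' w), F w) - G c)|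
      ≤ ∑ c ∈ I, |(∑ w ∈ W with InC x K₃ K₄ c.1 c.2 (lc z w) (lc z' w), F w) - G c| :=
        Finset.abs_sum_le_sum_abs _ _
    _ ≤ ∑ c ∈ I, M ^ 2 * (#{w ∈ bdN x R A K₃ z z' | InC x K₃ K₄ c.1 c.2 (lc z w) (lc z' w)} : ℝ) :=
        Finset.sum_le_sum hcell
    _ ≤ M ^ 2 * #(bdN x R A K₃ z z') := by
        rw [← Finset.mul_sum]
        exact mul_le_mul_of_nonneg_left hbd (sq_nonneg M)

end Pool.Agent.EU
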